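import Mathlib
import Pool.Agent.H.MP_fda97a_al.Glob

set_option autoImplicit false

namespace Pool.Agent.Results.MP_fda97a_al.Class

theorem result (n : ℕ) (φ : Matrix (Fin n) (Fin n) ℂ → Matrix (Fin n) (Fin n) ℂ) :
    (∀ T S, spectrum ℂ (φ T * φ S - φ S * φ T) = spectrum ℂ (T * S - S * T)) ↔
    ∃ (A : Matrix (Fin n) (Fin n) ℂ) (η ε : Matrix (Fin n) (Fin n) ℂ → ℂ),
      IsUnit A ∧ (∀ T, ε T = 1 ∨ ε T = -1) ∧
      (∀ T S, (¬ ∃ a b : ℂ, T * T = a • T + b • (1 : Matrix (Fin n) (Fin n) ℂ)) →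
        (¬ ∃ a b : ℂ, S * S = a • S + b • (1 : Matrix (Fin n) (Fin n) ℂ)) → ε T = ε S) ∧
      ((∀ T, φ T = ε T • (A * T * A⁻¹) + η T • (1 : Matrix (Fin n) (Fin n) ℂ)) ∨
        (∀ T, φ T = (Complex.I * ε T) • (A * T.transpose * A⁻¹) +
          η T • (1 : Matrix (Fin n) (Fin n) ℂ))) := by
  rw [← Pool.Agent.H.MP_fda97a_al.glob φ]
  simp only [Set.ext_iff, Pool.Agent.H.MP_fda97a_al.spec_iff]
  exact Iff.rfl

end Pool.Agent.Results.MP_fda97a_al.Class
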